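import Pool.Agent.MP_d6f492_lc.Ground
import Pool.Agent.MP_d6f492_lc.Model
import Pool.Agent.MP_d6f492_lc.Inner
import Pool.Agent.MP_d6f492_lc.Hur
import Pool.Agent.MP_d6f492_lc.Dich

/-! From a subtle cardinal: a transitive model of ZFC with a weakly compact cardinal at which all
analytic sets satisfy the relativized strong Hurewicz dichotomy. -/

namespace Pool.Agent.Results.MP_d6f492_lc.HurewiczSubtle

open Pool.Agent.ZF92 Pool.Agent.MP_d6f492_lc

theorem result (h : ∃ δ : Cardinal.{0}, Subtle δ) :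
    ∃ M : Set ZFSet.{0}, ZFC M ∧ ∃ κ ∈ M, WeaklyCompact M κ ∧
      ∀ A ∈ M, Analytic M κ A → KSigma M κ A ∨ ClosedCopy M κ A :=
  final ground model wc (dich clu hur) h

end Pool.Agent.Results.MP_d6f492_lc.HurewiczSubtle
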